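import Pool.Agent.Y649.DG.Basic
import Pool.Agent.Y638.RF.NetDefs
import Mathlib.LinearAlgebra.Matrix.ToLinearEquiv

set_option autoImplicit false

/-! # Formulas with determinant gates simulate networks -/

namespace Pool.Agent.Y649.DG

open Finset

/-! ### Reachability and regular matrices -/

section reach

variable {κ : Type} [Fintype κ] [DecidableEq κ] (E : κ → κ → Prop) [DecidableRel E]

/-- The matrix of the reachability problem. -/
def rmat (s t : κ) : Matrix (κ ⊕ Unit) (κ ⊕ Unit) ℝ
  | .inl a, .inl b => (if a = b then (Fintype.card κ : ℝ) + 1 else 0) - (if E a b then 1 else 0)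
  | .inl a, .inr _ => if a = t then 1 else 0
  | .inr _, .inl b => if b = s then 1 else 0
  | .inr _, .inr _ => 0

omit [DecidableEq κ] in
theorem nonneg_of (y r : κ → ℝ) (hr : ∀ a, 0 ≤ r a)
    (h : ∀ a, ((Fintype.card κ : ℝ) + 1) * y a = ∑ b, (if E a b then y b else 0) + r a) (a : κ) :
    0 ≤ y a := by
  by_contra ha
  push Not at ha
  obtain ⟨m, -, hm⟩ := exists_min_image univ y ⟨a, mem_univ a⟩
  have hm0 : y m < 0 := lt_of_le_of_lt (hm a (mem_univ a)) ha
  have h1 : ∑ _b : κ, y m ≤ ∑ b, (if E m b then y b else 0) := by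
    refine sum_le_sum fun b _ => ?_
    split_ifs
    · exact hm b (mem_univ b)
    · exact hm0.le
  rw [sum_const, card_univ, nsmul_eq_mul] at h1
  have h2 := h m
  have h3 := hr m
  nlinarith

omit [DecidableEq κ] in
theorem zero_of (y : κ → ℝ)
    (h : ∀ a, ((Fintype.card κ : ℝ) + 1) * y a = ∑ b, (if E a b then y b else 0)) (a : κ) :
    y a = 0 := by
  have h1 := nonneg_of E y (fun _ => 0) (fun _ => le_rfl) (fun a => by rw [h a, add_zero]) a
  have h2 := nonneg_of E (fun a => - y a) (fun _ => 0) (fun _ => le_rfl) (fun a => by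
    rw [add_zero, mul_neg, h a, ← sum_neg_distrib]
    refine sum_congr rfl fun b _ => ?_
    split_ifs <;> simp) a
  linarith

theorem pos_of {t : κ} {y : κ → ℝ} {r : ℝ} (hr : 0 < r)
    (h : ∀ a, ((Fintype.card κ : ℝ) + 1) * y a =
      ∑ b, (if E a b then y b else 0) + (if a = t then r else 0)) {a : κ}
    (ha : Relation.ReflTransGen E a t) : 0 < y a := by
  have hy : ∀ a, 0 ≤ y a := nonneg_of E y _ (fun a => by split_ifs <;> linarith) h
  have hc : (0 : ℝ) < (Fintype.card κ : ℝ) + 1 := by positivity
  have hs : ∀ a, 0 ≤ ∑ b, (if E a b then y b else 0) := fun a =>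
    sum_nonneg fun b _ => by
      split_ifs
      · exact hy b
      · exact le_rfl
  induction ha using Relation.ReflTransGen.head_induction_on with
  | refl =>
    have h1 := h t
    rw [if_pos rfl] at h1
    have h2 := hs t
    by_contra hcon
    push Not at hcon
    nlinarith
  | head hab hbt ih =>
    rename_i a b
    have h1 := h a
    have h2 : y b ≤ ∑ b, (if E a b then y b else 0) := by
      have h3 := single_le_sum (f := fun b => if E a b then y b else 0)
        (fun b _ => by
          split_ifs
          · exact hy b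
          · exact le_rfl) (mem_univ b)
      simp only [if_pos hab] at h3
      exact h3
    have h3 : (0 : ℝ) ≤ if a = t then r else 0 := by split_ifs <;> linarith
    by_contra hcon
    push Not at hcon
    nlinarith

theorem zero_outside {t : κ} {y : κ → ℝ} {r : ℝ} (hr : 0 < r)
    (h : ∀ a, ((Fintype.card κ : ℝ) + 1) * y a =
      ∑ b, (if E a b then y b else 0) + (if a = t then r else 0)) {a : κ}
    (ha : ¬ Relation.ReflTransGen E a t) : y a = 0 := by
  classical
  have hy : ∀ a, 0 ≤ y a := nonneg_of E y _ (fun a => by split_ifs <;> linarith) h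
  by_contra hne
  have hpos : 0 < y a := lt_of_le_of_ne (hy a) (Ne.symm hne)
  obtain ⟨m, hm, hmax⟩ := exists_max_image (univ.filter fun a => ¬ Relation.ReflTransGen E a t) y
    ⟨a, mem_filter.2 ⟨mem_univ a, ha⟩⟩
  rw [mem_filter] at hm
  have hm0 : 0 < y m := lt_of_lt_of_le hpos (hmax a (mem_filter.2 ⟨mem_univ a, ha⟩))
  have hmt : m ≠ t := by
    rintro rfl
    exact hm.2 Relation.ReflTransGen.refl
  have h1 := h m
  rw [if_neg hmt, add_zero] at h1
  have h2 : ∑ b, (if E m b then y b else 0) ≤ ∑ _b : κ, y m := by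
    refine sum_le_sum fun b _ => ?_
    split_ifs with hb
    · exact hmax b (mem_filter.2 ⟨mem_univ b, fun hbt =>
        hm.2 (Relation.ReflTransGen.head hb hbt)⟩)
    · exact hm0.le
  rw [sum_const, card_univ, nsmul_eq_mul] at h2
  nlinarith

theorem rmat_mulVec_inl (s t : κ) (y : κ → ℝ) (z : ℝ) (a : κ) :
    (rmat E s t).mulVec (Sum.elim y (fun _ => z)) (.inl a) =
      ((Fintype.card κ : ℝ) + 1) * y a - ∑ b, (if E a b then y b else 0) +
        (if a = t then z else 0) := by
  unfold Matrix.mulVec dotProduct
  rw [Fintype.sum_sum_type]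
  simp only [rmat, Sum.elim_inl, Sum.elim_inr, univ_unique, sum_singleton, sub_mul,
    sum_sub_distrib, ite_mul, zero_mul, one_mul]
  rw [sum_ite_eq]
  simp

theorem rmat_mulVec_inr (s t : κ) (y : κ → ℝ) (z : ℝ) :
    (rmat E s t).mulVec (Sum.elim y (fun _ => z)) (.inr ()) = y s := by
  unfold Matrix.mulVec dotProduct
  rw [Fintype.sum_sum_type]
  simp [rmat]

/-- Reachability is regularity of a matrix. -/
theorem reach_iff (s t : κ) : Relation.ReflTransGen E s t ↔ (rmat E s t).det ≠ 0 := by
  constructor
  · intro hst h0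
    obtain ⟨v, hv, hv0⟩ := Matrix.exists_mulVec_eq_zero_iff.2 h0
    obtain ⟨y, hy⟩ : ∃ y : κ → ℝ, y = fun a => v (.inl a) := ⟨_, rfl⟩
    obtain ⟨z, hz⟩ : ∃ z : ℝ, z = v (.inr ()) := ⟨_, rfl⟩
    have hvv : v = Sum.elim y (fun _ => z) := by
      funext a
      rcases a with a | a
      · rw [hy]
        rfl
      · rw [hz]
        rfl
    rw [hvv] at hv hv0
    have h1 : ∀ a, ((Fintype.card κ : ℝ) + 1) * y a =
        ∑ b, (if E a b then y b else 0) + (if a = t then -z else 0) := by
      intro a
      have h2 := congrFun hv0 (.inl a)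
      rw [rmat_mulVec_inl, Pi.zero_apply] at h2
      split_ifs at h2 ⊢ <;> linarith
    have h2 : y s = 0 := by
      have h3 := congrFun hv0 (.inr ())
      rw [rmat_mulVec_inr, Pi.zero_apply] at h3
      exact h3
    rcases lt_trichotomy z 0 with hz0 | hz0 | hz0
    · have := pos_of E (r := -z) (by linarith) h1 hst
      linarith
    · apply hv
      have h3 : ∀ a, y a = 0 := zero_of E y (fun a => by
        rw [h1 a, hz0]
        simp)
      funext a
      rcases a with a | a
      · exact h3 a
      · exact hz0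
    · have h3 : ∀ a, ((Fintype.card κ : ℝ) + 1) * (-y a) =
          ∑ b, (if E a b then -y b else 0) + (if a = t then z else 0) := by
        intro a
        rw [mul_neg, h1 a, neg_add, ← sum_neg_distrib]
        congr 1
        · refine sum_congr rfl fun b _ => ?_
          split_ifs <;> simp
        · split_ifs <;> simp
      have := pos_of E (y := fun a => -y a) (r := z) hz0 h3 hst
      linarith
  · intro hdet
    by_contra hst
    apply hdet
    rw [← Matrix.exists_mulVec_eq_zero_iff]
    -- a solution of the system without the border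
    obtain ⟨A, hA⟩ : ∃ A : Matrix κ κ ℝ, A = Matrix.of fun a b =>
      (if a = b then (Fintype.card κ : ℝ) + 1 else 0) - (if E a b then 1 else 0) := ⟨_, rfl⟩
    have hmul : ∀ (y : κ → ℝ) a, A.mulVec y a = ((Fintype.card κ : ℝ) + 1) * y a -
        ∑ b, (if E a b then y b else 0) := by
      intro y a
      rw [hA]
      unfold Matrix.mulVec dotProduct
      simp only [Matrix.of_apply, sub_mul, sum_sub_distrib, ite_mul, zero_mul, one_mul]
      rw [sum_ite_eq]
      simp
    have hreg : A.det ≠ 0 := by
      intro h0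
      obtain ⟨y, hy, hy0⟩ := Matrix.exists_mulVec_eq_zero_iff.2 h0
      apply hy
      funext a
      refine zero_of E y (fun a => ?_) a
      have h1 := congrFun hy0 a
      rw [hmul, Pi.zero_apply] at h1
      linarith
    obtain ⟨y, hy⟩ : ∃ y : κ → ℝ, A.mulVec y = fun a => if a = t then 1 else 0 := by
      refine ⟨A⁻¹.mulVec (fun a => if a = t then 1 else 0), ?_⟩
      rw [Matrix.mulVec_mulVec, Matrix.mul_nonsing_inv _ (Ne.isUnit hreg), Matrix.one_mulVec]
    have h1 : ∀ a, ((Fintype.card κ : ℝ) + 1) * y a =
        ∑ b, (if E a b then y b else 0) + (if a = t then 1 else 0) := by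
      intro a
      have h2 := congrFun hy a
      rw [hmul] at h2
      linarith
    refine ⟨Sum.elim y (fun _ => -1), ?_, ?_⟩
    · intro h0
      have := congrFun h0 (.inr ())
      simp at this
    · funext a
      rcases a with a | a
      · rw [rmat_mulVec_inl, h1 a, Pi.zero_apply]
        split_ifs <;> ring
      · rw [rmat_mulVec_inr, Pi.zero_apply]
        exact zero_outside E zero_lt_one h1 hst

end reach

theorem lift_path {α β : Type} {r : α → α → Prop} {p : β → β → Prop} (f : α → β)
    (h : ∀ a b, r a b → Relation.ReflTransGen p (f a) (f b)) {a b : α}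
    (hab : Relation.ReflTransGen r a b) : Relation.ReflTransGen p (f a) (f b) := by
  induction hab with
  | refl => exact Relation.ReflTransGen.refl
  | tail _ hbc ih => exact ih.trans (h _ _ hbc)

/-! ### Gates with any index type -/

variable {ι : Type} {D : ι → Type} {w q : ℕ}

open Classical in
theorem exists_reg {κ : Type} [Fintype κ] [DecidableEq κ] (K : Type) [inst : Field K]
    (c c' : κ → κ → K) (F : κ → κ → Fml ι D w q) :
    ∃ G : Fml ι D w q, G.size = ∑ a, ∑ b, (F a b).size ∧ ∀ x, G.accepts x = decide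
      ((Matrix.of fun a b => if 0 < (F a b).eval x then c' a b else c a b).det ≠ 0) := by
  obtain ⟨e, -⟩ : ∃ e : κ ≃ Fin (Fintype.card κ), True := ⟨Fintype.equivFin κ, trivial⟩
  refine ⟨Fml.reg K inst (Fintype.card κ) (fun a b => c (e.symm a) (e.symm b))
    (fun a b => c' (e.symm a) (e.symm b)) (fun a b => F (e.symm a) (e.symm b)), ?_, ?_⟩
  · simp only [Fml.size]
    rw [← Equiv.sum_comp e.symm (fun a => ∑ b, (F a b).size)]
    refine sum_congr rfl fun a _ => ?_
    exact Equiv.sum_comp e.symm (fun b => (F (e.symm a) b).size)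
  · intro x
    unfold Fml.accepts
    rw [Fml.eval_reg]
    have e1 : (Matrix.of fun a b => if 0 < (F (e.symm a) (e.symm b)).eval x then
        c' (e.symm a) (e.symm b) else c (e.symm a) (e.symm b)) =
        (Matrix.of fun a b => if 0 < (F a b).eval x then c' a b else c a b).submatrix
          e.symm e.symm := rfl
    rw [e1, Matrix.det_submatrix_equiv_self]
    by_cases h : (Matrix.of fun a b => if 0 < (F a b).eval x then c' a b else c a b).det ≠ 0
    · rw [if_pos h, decide_eq_true h]
      simp
    · rw [if_neg h, decide_eq_false h]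
      simp

/-! ### Networks -/

open Classical in
/-- A network with `n` nodes, free edges, and `m` edges which are guarded by formulas. -/
theorem exists_path {n m : ℕ} (start stop : Fin n) (free : Fin n → Fin n → Prop)
    (src dst : Fin m → Fin n) (G : Fin m → Fml ι D w q) :
    ∃ F : Fml ι D w q, F.size = ∑ k, (G k).size ∧ ∀ x, F.accepts x = true ↔
      Relation.ReflTransGen (fun u v => free u v ∨ ∃ k, src k = u ∧ dst k = v ∧
        (G k).accepts x = true) start stop := by
  -- the graph in which the guarded edges are nodes, too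
  obtain ⟨E, hE⟩ : ∃ E : (∀ i, D i) → (Fin n ⊕ Fin m) → (Fin n ⊕ Fin m) → Prop,
      E = fun x a b => match a, b with
        | .inl u, .inl v => free u v
        | .inl u, .inr k => src k = u
        | .inr k, .inl v => dst k = v ∧ (G k).accepts x = true
        | .inr _, .inr _ => False := ⟨_, rfl⟩
  -- the formulas
  obtain ⟨H, hH⟩ : ∃ H : (Fin n ⊕ Fin m) ⊕ Unit → (Fin n ⊕ Fin m) ⊕ Unit → Fml ι D w q,
      H = fun a b => match a, b with
        | .inl (.inr k), .inl (.inl v) => if dst k = v then G k else .const 0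
        | _, _ => .const 0 := ⟨_, rfl⟩
  obtain ⟨c, hc⟩ : ∃ c : (Fin n ⊕ Fin m) ⊕ Unit → (Fin n ⊕ Fin m) ⊕ Unit → ℝ,
      c = fun a b => match a, b with
        | .inl (.inr _), .inl (.inl _) => 0
        | a, b => rmat (fun a b : Fin n ⊕ Fin m => match a, b with
          | .inl u, .inl v => free u v
          | .inl u, .inr k => src k = u
          | _, _ => False) (.inl start) (.inl stop) a b := ⟨_, rfl⟩
  obtain ⟨F, hF1, hF2⟩ := exists_reg ℝ c (fun _ _ => -1) H
  refine ⟨F, ?_, fun x => ?_⟩
  · rw [hF1, Fintype.sum_sum_type, Fintype.sum_sum_type]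
    simp only [Fintype.sum_sum_type, hH, Fml.size, sum_const_zero, add_zero, zero_add]
    refine sum_congr rfl fun k _ => ?_
    rw [sum_eq_single (dst k)]
    · rw [if_pos rfl]
    · intro v _ hv
      rw [if_neg (Ne.symm hv)]
      rfl
    · intro h
      exact absurd (mem_univ _) h
  · rw [hF2, decide_eq_true_iff]
    have e1 : (Matrix.of fun a b => if 0 < (H a b).eval x then (-1 : ℝ) else c a b) =
        rmat (E x) (.inl start) (.inl stop) := by
      ext a b
      rw [Matrix.of_apply, hH, hc, hE]
      rcases a with (u | k) | _ <;> rcases b with (v | l) | _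
      · simp [Fml.eval, rmat]
      · simp [Fml.eval, rmat]
      · simp [Fml.eval, rmat]
      · simp only [rmat, reduceCtorEq, if_false, zero_sub]
        by_cases hd : dst k = v
        · rw [if_pos hd]
          unfold Fml.accepts
          by_cases hg : 0 < (G k).eval x
          · rw [if_pos hg, if_pos ⟨hd, decide_eq_true hg⟩]
          · rw [if_neg hg, if_neg (fun h => hg (of_decide_eq_true h.2)), neg_zero]
        · rw [if_neg hd]
          simp [Fml.eval, hd]
      · simp [Fml.eval, rmat]
      · simp [Fml.eval, rmat]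
      · simp [Fml.eval, rmat]
      · simp [Fml.eval, rmat]
      · simp [Fml.eval, rmat]
    rw [e1, ← reach_iff, hE]
    constructor
    · intro h
      obtain ⟨φ, hφ⟩ : ∃ φ : Fin n ⊕ Fin m → Fin n, φ = Sum.elim id src := ⟨_, rfl⟩
      have h1 := lift_path φ (p := fun u v => free u v ∨ ∃ k, src k = u ∧
        dst k = v ∧ (G k).accepts x = true) ?_ h
      · rw [hφ] at h1
        exact h1
      · intro a b hab
        rw [hφ]
        rcases a with u | k <;> rcases b with v | l
        · exact Relation.ReflTransGen.single (Or.inl hab)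
        · have hab' : src l = u := hab
          simp only [Sum.elim_inl, id_eq, Sum.elim_inr]
          rw [hab']
        · have hab' : dst k = v ∧ (G k).accepts x = true := hab
          exact Relation.ReflTransGen.single (Or.inr ⟨k, rfl, hab'.1, hab'.2⟩)
        · exact absurd hab id
    · intro h
      refine lift_path (Sum.inl : Fin n → Fin n ⊕ Fin m) ?_ h
      intro u v huv
      rcases huv with huv | ⟨k, h1, h2, h3⟩
      · exact Relation.ReflTransGen.single huv
      · exact Relation.ReflTransGen.trans (b := Sum.inr k)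
          (Relation.ReflTransGen.single h1) (Relation.ReflTransGen.single ⟨h2, h3⟩)

/-! ### The old formulas and networks -/

/-- The formulas of `Pool.Agent.Y638.RF`. -/
theorem exists_of_rf (F : Pool.Agent.Y638.RF.Fml ι D w q) :
    ∃ G : Fml ι D w q, G.size = F.size ∧ ∀ x, G.eval x = F.eval x := by
  induction F with
  | const c => exact ⟨.const c, rfl, fun _ => rfl⟩
  | item i f => exact ⟨.item i f, rfl, fun _ => rfl⟩
  | word τ => exact ⟨.word τ, rfl, fun _ => rfl⟩
  | add F1 F2 ih1 ih2 =>
    obtain ⟨G1, h1, h1'⟩ := ih1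
    obtain ⟨G2, h2, h2'⟩ := ih2
    refine ⟨.det 2 ![![G1, G2], ![.const (-1), .const 1]], ?_, fun x => ?_⟩
    · simp [Fml.size, Fin.sum_univ_two, Pool.Agent.Y638.RF.Fml.size, h1, h2]
    · simp [Fml.eval, Matrix.det_fin_two, Pool.Agent.Y638.RF.Fml.eval, h1', h2']
  | mul F1 F2 ih1 ih2 =>
    obtain ⟨G1, h1, h1'⟩ := ih1
    obtain ⟨G2, h2, h2'⟩ := ih2
    refine ⟨.det 2 ![![G1, .const 0], ![.const 0, G2]], ?_, fun x => ?_⟩
    · simp [Fml.size, Fin.sum_univ_two, Pool.Agent.Y638.RF.Fml.size, h1, h2]
    · simp [Fml.eval, Matrix.det_fin_two, Pool.Agent.Y638.RF.Fml.eval, h1', h2']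
  | pos F ih =>
    obtain ⟨G, h, h'⟩ := ih
    refine ⟨.pos G, by simp [Fml.size, Pool.Agent.Y638.RF.Fml.size, h], fun x => ?_⟩
    simp [Fml.eval, Pool.Agent.Y638.RF.Fml.eval, h']
  | sym k f F ih =>
    choose G h h' using ih
    refine ⟨.sym k f G, by simp [Fml.size, Pool.Agent.Y638.RF.Fml.size, h], fun x => ?_⟩
    simp [Fml.eval, Pool.Agent.Y638.RF.Fml.eval, h']

/-- Formulas with determinant gates simulate the networks of `Pool.Agent.Y638.RF`. -/
theorem exists_of_net (N : Pool.Agent.Y638.RF.Net ι D w q) :
    ∃ F : Fml ι D w q, F.size ≤ N.size ∧ ∀ x, F.accepts x = N.eval x := by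
  classical
  choose G h h' using fun k => exists_of_rf (N.fml k)
  obtain ⟨F, h1, h2⟩ := exists_path N.start N.stop N.free N.src N.dst G
  refine ⟨F, ?_, fun x => ?_⟩
  · rw [h1]
    unfold Pool.Agent.Y638.RF.Net.size
    exact sum_le_sum fun k _ => by rw [h k]; omega
  · have e : ∀ k, (G k).accepts x = (N.fml k).accepts x := by
      intro k
      unfold Fml.accepts Pool.Agent.Y638.RF.Fml.accepts
      rw [h']
    have h3 := h2 x
    simp only [e] at h3
    have h4 : N.eval x = true ↔ F.accepts x = true := by
      rw [h3]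
      unfold Pool.Agent.Y638.RF.Net.eval
      rw [decide_eq_true_iff]
      rfl
    rw [Bool.eq_iff_iff]
    exact h4.symm

end Pool.Agent.Y649.DG
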