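import Pool.Agent.Y350.DGF.Schur
import Pool.Agent.Y350.DGF.Zero
import Pool.Agent.Y815.DGCov
import Pool.Agent.Y419.DG.Reg
import Pool.Agent.Y73.DG.Core
import Pool.Agent.Y427.DG.Lower

set_option autoImplicit false

/-! # Formulas with determinant gates: the lower bound -/

namespace Pool.Agent.Y649.DG

theorem sub : S_SUB :=
  Pool.Agent.Y73.DG.core (Pool.Agent.Y815.DG.cov_det Pool.Agent.Y350.DGF.schur)
    (Pool.Agent.Y419.DG.reg Pool.Agent.Y350.DGF.schur Pool.Agent.Y350.DGF.zero)

theorem bound : S_BOUND := Pool.Agent.Y427.DG.lower sub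

end Pool.Agent.Y649.DG
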