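import Pool.Agent.Y649.DG.Stm
import Pool.Agent.Y638.RF.Grp

set_option autoImplicit false

/-! # Formulas with determinant gates: a closed form of the bound; regrouping of the items -/

namespace Pool.Agent.Y649.DG

open Finset
open Pool.Agent.TH697.Form (IsProb)
open Pool.Agent.TH697.Row (ApproximatesOn)
open Pool.Agent.Y638.RF (Word Cov Un Asks ungroup)

/-- The square of the bound. -/
theorem bound_sq (h : S_BOUND) {ι : Type} {D : ι → Type} [DecidableEq ι] {w q : ℕ} {T : Type}
    [Fintype T] {Ω : Type} [Fintype Ω] (μ : Ω → ℝ) (hμ : IsProb μ) (F : Ω → Fml ι D w q)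
    (P : (∀ i, D i) → Prop) (f : (∀ i, D i) → Bool)
    (hF : ApproximatesOn μ (fun ω => (F ω).accepts) P f) (s : ℕ) (hs : ∀ ω, (F ω).size ≤ s)
    (hq : 1 ≤ q) (hw : 1 ≤ w) (K M : ℕ) (hM : 4 * K * (5 * s + 1) + 2 + s ≤ M) (δ : ℝ)
    (hδ : δ ≤ 1 / 32) (I : Finset ι) (hI : ∀ i ∈ I, Asks T K δ P f i) (t : ℝ) (ht : 100 ≤ t)
    (hT : t ≤ Fintype.card T) (L : ℝ)
    (hL : 1 + 5 * Real.logb 2 M + (w - 1) * Real.logb 2 q ≤ L) :
    (I.card : ℝ) ^ 2 * t ≤ 360000 * w ^ 2 * L * s ^ 2 := by
  have h1 := h ι D w q T Ω μ hμ F P f hF s hs hq hw K M hM δ hδ I hI t ht hT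
  have hlq : 0 ≤ Real.logb 2 (q : ℝ) := Real.logb_nonneg (by norm_num) (by exact_mod_cast hq)
  have hlM : 0 ≤ Real.logb 2 (M : ℝ) :=
    Real.logb_nonneg (by norm_num) (by exact_mod_cast (by omega : 1 ≤ M))
  have hw1 : (0 : ℝ) ≤ (w : ℝ) - 1 := by
    have : (1 : ℝ) ≤ w := by exact_mod_cast hw
    linarith
  have hwq : 0 ≤ ((w : ℝ) - 1) * Real.logb 2 q := mul_nonneg hw1 hlq
  have h2 : (I.card : ℝ) * Real.sqrt t ≤ 600 * w * Real.sqrt L * s := by
    refine h1.trans ?_
    apply mul_le_mul_of_nonneg_right _ (Nat.cast_nonneg _)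
    apply mul_le_mul_of_nonneg_left _ (by positivity)
    exact Real.sqrt_le_sqrt hL
  have h3 := pow_le_pow_left₀ (by positivity) h2 2
  have e1 : ((I.card : ℝ) * Real.sqrt t) ^ 2 = (I.card : ℝ) ^ 2 * t := by
    rw [mul_pow, Real.sq_sqrt (by linarith)]
  have e2 : (600 * (w : ℝ) * Real.sqrt L * s) ^ 2 = 360000 * w ^ 2 * L * s ^ 2 := by
    rw [mul_pow, mul_pow, mul_pow, Real.sq_sqrt (by linarith)]
    norm_num
  rw [e1, e2] at h3
  exact h3

section grp

variable {ι β V : Type} {w q : ℕ}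

/-- A formula of the items as a formula of the blocks. -/
def Fml.grp (b : ι → β) : Fml ι (fun _ => V) w q → Fml β (fun _ => ι → V) w q
  | .const c => .const c
  | .item i f => .item (b i) (fun y => f (y i))
  | .word τ => .word ⟨fun k => b (τ.item k), fun k y => τ.view k (y (τ.item k)), τ.out⟩
  | .pos F => .pos (F.grp b)
  | .sym k h F => .sym k h (fun j => (F j).grp b)
  | .det m F => .det m (fun x y => (F x y).grp b)
  | .reg K inst m c c' F => .reg K inst m c c' (fun x y => (F x y).grp b)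

theorem Fml.eval_grp (b : ι → β) (F : Fml ι (fun _ => V) w q) (x : β → ι → V) :
    (F.grp b).eval x = F.eval (ungroup b x) := by
  induction F with
  | const c => rfl
  | item i f => rfl
  | word τ => rfl
  | pos F ih => simp only [Fml.grp, Fml.eval, ih]
  | sym k h F ih => simp only [Fml.grp, Fml.eval, ih]
  | det m F ih => simp only [Fml.grp, Fml.eval, ih]
  | reg K inst m c c' F ih =>
    have e : (fun a d => if 0 < ((F a d).grp b).eval x then c' a d else c a d) =
        fun a d => if 0 < (F a d).eval (ungroup b x) then c' a d else c a d := by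
      funext a d
      rw [ih a d]
    have e1 : (Fml.reg K inst m c c' F).grp b =
      Fml.reg K inst m c c' (fun x y => (F x y).grp b) := rfl
    rw [e1, Fml.eval_reg, Fml.eval_reg, e]

theorem Fml.size_grp (b : ι → β) (F : Fml ι (fun _ => V) w q) : (F.grp b).size = F.size := by
  induction F with
  | const c => rfl
  | item i f => rfl
  | word τ => rfl
  | pos F ih => simp only [Fml.grp, Fml.size, ih]
  | sym k h F ih => simp only [Fml.grp, Fml.size, ih]
  | det m F ih => simp only [Fml.grp, Fml.size, ih]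
  | reg K _ m c c' F ih => simp only [Fml.grp, Fml.size, ih]

theorem Fml.accepts_grp (b : ι → β) (F : Fml ι (fun _ => V) w q) (x : β → ι → V) :
    (F.grp b).accepts x = F.accepts (ungroup b x) := by
  unfold Fml.accepts
  rw [Fml.eval_grp]

end grp

end Pool.Agent.Y649.DG
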