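import Pool.Agent.Y649.DG.Defs
import Pool.Agent.Y638.RF.Core

set_option autoImplicit false

/-! # Formulas with determinant gates: the leaves which see an item -/

namespace Pool.Agent.Y649.DG

open Finset
open Pool.Agent.Y638.RF (Word Un)

variable {ι : Type} {D : ι → Type} [DecidableEq ι] {w q : ℕ}

namespace Fml

/-- The number of leaves which see item `i`. -/
def reads (i : ι) : Fml ι D w q → ℕ
  | const _ => 0
  | item j _ => if j = i then 1 else 0
  | word τ => if τ.Sees i then 1 else 0
  | pos F => F.reads i
  | sym _ _ F => ∑ j, (F j).reads i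
  | det _ F => ∑ a, ∑ b, (F a b).reads i
  | reg _ _ _ _ _ F => ∑ a, ∑ b, (F a b).reads i

open Classical in
omit [DecidableEq ι] in
theorem eval_reg (K : Type) [inst : Field K] (m : ℕ) (c c' : Fin m → Fin m → K)
    (F : Fin m → Fin m → Fml ι D w q) (x : ∀ i, D i) : (reg K inst m c c' F).eval x =
      if (Matrix.of fun a b => if 0 < (F a b).eval x then c' a b else c a b).det ≠ 0 then 1 else 0 :=
  rfl

open Classical in
theorem eval_update (i : ι) (F : Fml ι D w q) (h : F.reads i = 0) (z : ∀ i, D i) (d : D i) :
    F.eval (Function.update z i d) = F.eval z := by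
  induction F with
  | const c => rfl
  | item j f =>
    have hj : j ≠ i := by
      intro hj
      simp [reads, hj] at h
    simp only [eval]
    rw [Function.update_of_ne hj]
  | word τ =>
    have hτ : ¬ τ.Sees i := by
      intro hτ
      simp [reads, hτ] at h
    simp only [eval]
    rw [τ.update_of_not i hτ]
  | pos F ih =>
    simp only [reads] at h
    simp only [eval]
    rw [ih h]
  | sym k H F ih =>
    simp only [reads] at h
    simp only [eval]
    have h1 : ∀ j, (F j).eval (Function.update z i d) = (F j).eval z := fun j =>
      ih j (by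
        have := (sum_eq_zero_iff (s := univ) (f := fun j => (F j).reads i)).1 h
        exact this j (mem_univ j))
    simp only [h1]
  | det m F ih =>
    simp only [reads] at h
    simp only [eval]
    have h1 : ∀ a b, (F a b).eval (Function.update z i d) = (F a b).eval z := fun a b =>
      ih a b (by
        have h2 := (sum_eq_zero_iff (s := univ) (f := fun a => ∑ b, (F a b).reads i)).1 h a
          (mem_univ a)
        exact (sum_eq_zero_iff (s := univ) (f := fun b => (F a b).reads i)).1 h2 b (mem_univ b))
    simp only [h1]
  | reg K _ m c c' F ih =>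
    simp only [reads] at h
    have h1 : ∀ a b, (F a b).eval (Function.update z i d) = (F a b).eval z := fun a b =>
      ih a b (by
        have h2 := (sum_eq_zero_iff (s := univ) (f := fun a => ∑ b, (F a b).reads i)).1 h a
          (mem_univ a)
        exact (sum_eq_zero_iff (s := univ) (f := fun b => (F a b).reads i)).1 h2 b (mem_univ b))
    have e : (fun a b => if 0 < (F a b).eval (Function.update z i d) then c' a b else c a b) =
        fun a b => if 0 < (F a b).eval z then c' a b else c a b := by
      funext a b
      rw [h1 a b]
    rw [eval_reg, eval_reg, e]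

theorem sum_reads_le (I : Finset ι) (hw : 1 ≤ w) (F : Fml ι D w q) :
    ∑ i ∈ I, F.reads i ≤ w * F.size := by
  induction F with
  | const c => simp [reads, size]
  | item j f =>
    simp only [reads, size]
    rw [Finset.sum_ite_eq]
    split_ifs <;> omega
  | word τ =>
    simp only [reads, size]
    rw [← card_filter, mul_one]
    exact τ.card_sees I
  | pos F ih => exact ih
  | sym k H F ih =>
    simp only [reads, size]
    rw [sum_comm, mul_add]
    calc ∑ j, ∑ i ∈ I, (F j).reads i ≤ ∑ j, w * (F j).size := sum_le_sum fun j _ => ih j
      _ = w * ∑ j, (F j).size := by rw [mul_sum]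
      _ ≤ _ := by omega
  | det m F ih =>
    simp only [reads, size]
    rw [sum_comm, mul_sum]
    refine sum_le_sum fun a _ => ?_
    rw [sum_comm, mul_sum]
    exact sum_le_sum fun b _ => ih a b
  | reg K _ m c c' F ih =>
    simp only [reads, size]
    rw [sum_comm, mul_sum]
    refine sum_le_sum fun a _ => ?_
    rw [sum_comm, mul_sum]
    exact sum_le_sum fun b _ => ih a b

theorem reads_le_size (i : ι) (F : Fml ι D w q) : F.reads i ≤ F.size := by
  induction F with
  | const c => simp [reads]
  | item j f =>
    simp only [reads, size]
    split_ifs <;> omega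
  | word τ =>
    simp only [reads, size]
    split_ifs <;> omega
  | pos F ih => exact ih
  | sym k H F ih =>
    simp only [reads, size]
    exact (sum_le_sum fun j _ => ih j).trans (Nat.le_add_left _ _)
  | det m F ih =>
    simp only [reads, size]
    exact sum_le_sum fun a _ => sum_le_sum fun b _ => ih a b
  | reg K _ m c c' F ih =>
    simp only [reads, size]
    exact sum_le_sum fun a _ => sum_le_sum fun b _ => ih a b

/-- The functions of item `i`. -/
def Sub {Y : Type} (i : ι) (y : Y → D i) (F : Fml ι D w q) : Set (Y → ℝ) :=
  {g | ∃ (z : ∀ i, D i) (u : ℝ → ℝ), Un u ∧ g = fun v => u (F.eval (Function.update z i (y v)))}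

theorem mem_sub_id {Y : Type} (i : ι) (y : Y → D i) (F : Fml ι D w q) (z : ∀ i, D i) :
    (fun v => F.eval (Function.update z i (y v))) ∈ F.Sub i y := ⟨z, id, Un.id, rfl⟩

end Fml

end Pool.Agent.Y649.DG
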