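import Pool.Agent.Y638.RF.Defs
import Mathlib.LinearAlgebra.Matrix.Determinant.Basic

set_option autoImplicit false

/-! # Real formulas with determinant gates -/

namespace Pool.Agent.Y649.DG

open Finset
open Pool.Agent.Y638.RF (Word)

/-- Formulas with determinants: constants, arbitrary real functions of one item, arbitrary real
functions of `w` words, the sign test `pos` (is the value positive? `1` or `0`), gates `sym` of any
fan-in `k` whose value is an arbitrary real function of the number of the inputs which are positive,
determinants `det` of real matrices of any order `m` whose entries are formulas (sums and products are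
determinants of order two), and tests `reg`: is the matrix over the field `K` of any order `m` whose
entry `(a, b)` is `c' a b` or `c a b`, according to whether the formula `(a, b)` is positive or not,
regular? (`1` or `0`). -/
inductive Fml (ι : Type) (D : ι → Type) (w q : ℕ) : Type 1
  | const : ℝ → Fml ι D w q
  | item : (i : ι) → (D i → ℝ) → Fml ι D w q
  | word : Word ι D w q → Fml ι D w q
  | pos : Fml ι D w q → Fml ι D w q
  | sym : (k : ℕ) → (ℕ → ℝ) → (Fin k → Fml ι D w q) → Fml ι D w q
  | det : (m : ℕ) → (Fin m → Fin m → Fml ι D w q) → Fml ι D w q
  | reg : (K : Type) → Field K → (m : ℕ) → (c c' : Fin m → Fin m → K) →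
      (Fin m → Fin m → Fml ι D w q) → Fml ι D w q

namespace Fml

variable {ι : Type} {D : ι → Type} {w q : ℕ}

open Classical in
/-- The value of the formula. -/
noncomputable def eval : Fml ι D w q → (∀ i, D i) → ℝ
  | const c, _ => c
  | item i f, x => f (x i)
  | word τ, x => τ.out (fun k => τ.view k (x (τ.item k)))
  | pos F, x => if 0 < F.eval x then 1 else 0
  | sym _ h F, x => h (univ.filter (fun j => 0 < (F j).eval x)).card
  | det _ F, x => (Matrix.of fun a b => (F a b).eval x).det
  | reg _ _ _ c c' F, x =>
      if (Matrix.of fun a b => if 0 < (F a b).eval x then c' a b else c a b).det ≠ 0 then 1 else 0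

/-- The size: the number of the leaves which are not constants, and of the wires which lead to gates
`sym`. -/
def size : Fml ι D w q → ℕ
  | const _ => 0
  | item _ _ => 1
  | word _ => 1
  | pos F => F.size
  | sym k _ F => k + ∑ j, (F j).size
  | det _ F => ∑ a, ∑ b, (F a b).size
  | reg _ _ _ _ _ F => ∑ a, ∑ b, (F a b).size

/-- The formula accepts the input if its value is positive. -/
noncomputable def accepts (F : Fml ι D w q) (x : ∀ i, D i) : Bool := decide (0 < F.eval x)

end Fml

end Pool.Agent.Y649.DG
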