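import Pool.Agent.Y649.DG.Basic
import Pool.Agent.Y638.RF.NetLower

set_option autoImplicit false

/-! # Statements of the project DG (formulas with determinant gates) -/

namespace Pool.Agent.Y649.DG

open Finset MvPolynomial
open Pool.Agent.TH697.Form (IsProb)
open Pool.Agent.TH697.Row (ApproximatesOn)
open Pool.Agent.Y638.RF (Word Cov Un Asks)

/-- DG-SCHUR -/
def S_SCHUR : Prop :=
  ∀ (K : Type) [Field K] (m : ℕ) (U : Finset (Fin m)) (A : Matrix (Fin m) (Fin m) K),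
    ∃ (δ : K) (C : Matrix U U K) (H : Matrix (Fin m) U K), ∀ B : Matrix (Fin m) (Fin m) K,
      (∀ a, a ∉ U → ∀ b, B a b = 0) →
      (A + B).det = δ * (C + (B.submatrix (fun a : U => (a : Fin m)) id) * H).det

/-- DG-ZERO: zero patterns of polynomials -/
def S_ZERO : Prop :=
  ∀ (K : Type) [Field K] (Y : Type) [Fintype Y] (σ : Type) [Fintype σ]
    (P : Y → MvPolynomial σ K) (d : ℕ), (∀ v, (P v).totalDegree ≤ d) →
    (Set.range fun (θ : σ → K) => {v : Y | eval θ (P v) ≠ 0}).ncard ≤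
      (Fintype.card Y * d + 1) ^ Fintype.card σ

/-- DG-COV -/
def S_COV : Prop :=
  ∀ (Y : Type) (M m : ℕ), 1 ≤ M → ∀ (E : Finset (Fin m × Fin m))
    (d W : Fin m × Fin m → ℕ) (𝒢 : Fin m × Fin m → Set (Y → ℝ)),
    (∀ e ∈ E, Cov M (d e) (W e) (𝒢 e)) →
    Cov M (E.card + 1 + ∑ e ∈ E, d e) (M ^ (2 * E.card ^ 2 + 1) * ∏ e ∈ E, W e)
      {g | ∃ (A : Matrix (Fin m) (Fin m) ℝ) (b : Fin m × Fin m → Y → ℝ),
        (∀ e ∈ E, b e ∈ 𝒢 e) ∧
        g = fun v => (Matrix.of fun x y => if (x, y) ∈ E then b (x, y) v else A x y).det}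

open Classical in
/-- DG-REG -/
def S_REG : Prop :=
  ∀ (K : Type) [Field K] (Y : Type) [Fintype Y] (m M : ℕ)
    (E : Finset (Fin m × Fin m)) (c c' : Fin m → Fin m → K) (β : Fin m × Fin m → Y → Bool),
    Fintype.card Y * (E.card + 1) + 1 ≤ M →
    ∃ S : Finset (Y → Bool), S.card ≤ M ^ (2 * E.card ^ 2 + 1) ∧
      ∀ A : Matrix (Fin m) (Fin m) K, (fun v => decide ((Matrix.of fun x y =>
        if (x, y) ∈ E then (if β (x, y) v = true then c' x y else c x y) else A x y).det ≠ 0)) ∈ S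

/-- DG-CORE: few subfunctions -/
def S_SUB : Prop :=
  ∀ (ι : Type) (D : ι → Type) [DecidableEq ι] (w q : ℕ) (Y : Type) [Fintype Y] (i : ι)
    (y : Y → D i) (s M B : ℕ), 1 ≤ q → 4 * Fintype.card Y * (5 * s + 1) + 2 + s ≤ M →
    B = 2 * M ^ 5 * q ^ (w - 1) → ∀ F : Fml ι D w q, F.size ≤ s →
    ∃ S : Finset (Y → Bool), S.card ≤ 2 * B ^ (3 * F.reads i ^ 2) ∧
      ∀ z : (∀ i, D i), (fun v => F.accepts (Function.update z i (y v))) ∈ S

/-- DG-LOWER: the lower bound -/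
def S_BOUND : Prop :=
  ∀ (ι : Type) (D : ι → Type) [DecidableEq ι] (w q : ℕ) (T : Type) [Fintype T]
    (Ω : Type) [Fintype Ω] (μ : Ω → ℝ), IsProb μ → ∀ (F : Ω → Fml ι D w q)
    (P : (∀ i, D i) → Prop) (f : (∀ i, D i) → Bool),
    ApproximatesOn μ (fun ω => (F ω).accepts) P f → ∀ (s : ℕ), (∀ ω, (F ω).size ≤ s) →
    1 ≤ q → 1 ≤ w → ∀ (K M : ℕ), 4 * K * (5 * s + 1) + 2 + s ≤ M → ∀ (δ : ℝ),
    δ ≤ 1 / 32 → ∀ (I : Finset ι), (∀ i ∈ I, Asks T K δ P f i) → ∀ (t : ℝ), 100 ≤ t →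
    t ≤ Fintype.card T →
    (I.card : ℝ) * Real.sqrt t ≤
      600 * w * Real.sqrt (1 + 5 * Real.logb 2 M + (w - 1) * Real.logb 2 q) * s

end Pool.Agent.Y649.DG
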