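import Pool.Agent.Y649.DG.Gen
import Pool.Agent.Y638.RF.NetTaut
import Pool.Agent.Y638.RF.NetTri
import Pool.Agent.Y638.RF.NetZeroSum
import Pool.Agent.Y638.RF.Knap
import Pool.Agent.Y638.RF.HNBound
import Pool.Agent.Y638.RF.PTBound
import Pool.Agent.Y638.RF.Comp
import Pool.Agent.Y638.RF.DCF

set_option autoImplicit false

/-! # Statements: the bounds for particular problems -/

namespace Pool.Agent.Y649.DG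

open Finset
open Pool.Agent.TH697.Form (IsProb)
open Pool.Agent.TH697.Row (ApproximatesOn)
open Pool.Agent.Y638.RF (Asks)

/-- DG-3SUM -/
def S_3SUM : Prop :=
  ∀ n c w : ℕ, 1000 ≤ n → 1 ≤ c → 1 ≤ w → ∀ (Ω : Type) [Fintype Ω] (μ : Ω → ℝ), IsProb μ →
    ∀ (s : ℕ) (F : Ω → Fml (Option (Fin n)) (Pool.Agent.TH697.Form.ThreeSum.Item n n) w
      ((2 * n) ^ c)), (∀ ω, (F ω).size ≤ s) →
      ApproximatesOn μ (fun ω => (F ω).accepts) (Pool.Agent.TH697.Form.ThreeSum.Valid n n)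
        (Pool.Agent.TH457.Ary.ZeroSum.zeroSum n) →
      (n : ℝ) ^ 3 ≤ 80000000 * c * w ^ 3 * s ^ 2

/-- DG-SAT -/
def S_SAT : Prop :=
  ∀ n c w : ℕ, 1000 ≤ n → 1 ≤ c → 1 ≤ w → ∀ (Ω : Type) [Fintype Ω] (μ : Ω → ℝ), IsProb μ →
    ∀ (s : ℕ) (F : Ω → Fml (Fin n) (fun _ => Pool.Agent.TH457.Ary.Sat.Clause (2 * n) ×
      Pool.Agent.TH457.Ary.Sat.Clause (2 * n)) w (n ^ c)), (∀ ω, (F ω).size ≤ s) →
      ApproximatesOn μ (fun ω => (F ω).accepts)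
        (fun x => Pool.Agent.TH457.Ary.Sat.Horn (Pool.Agent.Y638.RF.Sat.flat x))
        (fun x => Pool.Agent.TH457.Ary.Sat.sat (Pool.Agent.Y638.RF.Sat.flat x)) →
      (n : ℝ) ^ 3 ≤ 40000000 * c * w ^ 3 * s ^ 2

/-- DG-TAUT -/
def S_TAUT : Prop :=
  ∀ n c w : ℕ, 1000 ≤ n → 1 ≤ c → 1 ≤ w → ∀ (Ω : Type) [Fintype Ω] (μ : Ω → ℝ), IsProb μ →
    ∀ (s : ℕ) (F : Ω → Fml (Fin n) (fun _ => Pool.Agent.Y638.RF.Taut.Term (2 * n) ×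
      Pool.Agent.Y638.RF.Taut.Term (2 * n)) w (n ^ c)), (∀ ω, (F ω).size ≤ s) →
      ApproximatesOn μ (fun ω => (F ω).accepts) (fun _ => True) Pool.Agent.Y638.RF.Taut.taut →
      (n : ℝ) ^ 3 ≤ 40000000 * c * w ^ 3 * s ^ 2

/-- DG-TRI -/
def S_TRI : Prop :=
  ∀ m c w : ℕ, 1000 ≤ m → 1 ≤ c → 1 ≤ w → ∀ (Ω : Type) [Fintype Ω] (μ : Ω → ℝ), IsProb μ →
    ∀ (s : ℕ) (F : Ω → Fml (Fin m) (fun _ => Pool.Agent.TH457.Ary.Tri.Edge (2 * m)) w (m ^ c)),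
      (∀ ω, (F ω).size ≤ s) →
      ApproximatesOn μ (fun ω => (F ω).accepts) Pool.Agent.TH457.Ary.Tri.Simple
        Pool.Agent.TH457.Ary.Tri.triangle →
      (m : ℝ) ^ 3 ≤ 50000000 * c * w ^ 3 * s ^ 2

/-- DG-DCF -/
def S_DCF : Prop :=
  ∀ n k w : ℕ, 4096 ≤ n → n * k ≤ 2 ^ k → 2 ^ k ≤ n ^ 2 → 1 ≤ k → 1 ≤ w →
    ∀ (Ω : Type) [Fintype Ω] (μ : Ω → ℝ), IsProb μ →
    ∀ (s : ℕ) (F : Ω → Fml (Fin (n + n)) (fun _ => Fin k → Pool.Agent.Y638.RF.DCF.Lt) w (6 ^ k)),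
      (∀ ω, (F ω).size ≤ s) →
      ApproximatesOn μ (fun ω => (F ω).accepts) (fun _ => True)
        (Pool.Agent.Y638.RF.DCF.lang Pool.Agent.Y638.RF.DCF.auto) →
      (n : ℝ) ^ 3 ≤ 40000000 * w ^ 3 * s ^ 2

/-- DG-COMP -/
def S_COMP : Prop :=
  ∀ m w : ℕ, 4096 ≤ m → 1 ≤ w → ∀ (Ω : Type) [Fintype Ω] (μ : Ω → ℝ), IsProb μ →
    ∀ (s : ℕ) (F : Ω → Fml (Fin m ⊕ Fin (m + 3)) (Pool.Agent.TH457.Ary.Comp.Item m (m + 3)) w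
      ((m + 3) ^ 2)), (∀ ω, (F ω).size ≤ s) →
      ApproximatesOn μ (fun ω => (F ω).accepts) (fun _ => True) Pool.Agent.TH457.Ary.Comp.value →
      (m : ℝ) ^ 3 ≤ 90000000 * w ^ 3 * Real.logb 2 m * s ^ 2

/-- DG-KNAP -/
def S_KNAP : Prop :=
  ∀ (K : Type) [Field K] [CharZero K] (n w q : ℕ), 4096 ≤ n → 1 ≤ w → 1 ≤ q →
    ∀ (Ω : Type) [Fintype Ω] (μ : Ω → ℝ), IsProb μ →
    ∀ (s : ℕ) (F : Ω → Fml (Fin n) (fun _ => K) w q), (∀ ω, (F ω).size ≤ s) →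
      ApproximatesOn μ (fun ω => (F ω).accepts) (fun _ => True) Pool.Agent.Y638.RF.Knap.knap →
      (n : ℝ) ^ 4 ≤ 90000000 * w ^ 2 * (Real.logb 2 n + (w - 1) * Real.logb 2 q) * s ^ 2

/-- DG-HN -/
def S_HN : Prop :=
  ∀ (K : Type) [Field K] [CharZero K] (k w q : ℕ), 1024 ≤ k → 1 ≤ w → 1 ≤ q →
    ∀ (Ω : Type) [Fintype Ω] (μ : Ω → ℝ), IsProb μ →
    ∀ (s : ℕ) (F : Ω → Fml (Fin k × Sym2 (Fin (k + 1))) (fun _ => K) w q),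
      (∀ ω, (F ω).size ≤ s) →
      ApproximatesOn μ (fun ω => (F ω).accepts) (fun _ => True) Pool.Agent.Y638.RF.HN.hn →
      (k : ℝ) ^ 5 ≤ 420000 * w * √(Real.logb 2 k + (w - 1) * Real.logb 2 q) * s

/-- DG-PT -/
def S_PT : Prop :=
  ∀ (n k w : ℕ) (F : ((Fin n → Bool) → Bool) → Prop), Pool.Agent.Y638.RF.PT.Class n k F →
    14 ≤ n → 1000 * n ≤ n.choose k → 1 ≤ w →
    ∀ (Ω : Type) [Fintype Ω] (μ : Ω → ℝ), IsProb μ →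
    ∀ (s : ℕ) (G : Ω → Fml (Fin n → Bool) (fun _ => Option Bool) w 3), (∀ ω, (G ω).size ≤ s) →
      ApproximatesOn μ (fun ω => (G ω).accepts) (fun _ => True) (Pool.Agent.Y638.RF.PT.easy F) →
      (2 : ℝ) ^ n * √(n.choose k) ≤ 6000 * n * w * √(n + w) * s

end Pool.Agent.Y649.DG
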